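import Pool.Agent.helper35.LV.Spec

/-!
# Row `lv:CJP` (MP_a2a22c_al): conjugation of `PV`
-/

set_option autoImplicit false

namespace Pool.Agent.LV

open Matrix Pool.Agent.H48SL Pool.Agent.UG

theorem CJP_inv_mulVec {n : ℕ} (g : SLZ n) (x : Fin n → ℤ) :
    (g : Matrix (Fin n) (Fin n) ℤ) *ᵥ ((g⁻¹ : SLZ n) : Matrix (Fin n) (Fin n) ℤ) *ᵥ x = x := by
  rw [Matrix.mulVec_mulVec, ← Matrix.SpecialLinearGroup.coe_mul, mul_inv_cancel, Matrix.SpecialLinearGroup.coe_one,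
    Matrix.one_mulVec]

theorem CJP : CJP_stmt := by
  intro n H v hPV g hg x ψ h1 h2
  obtain ⟨x', hx'⟩ : ∃ x', x' = ((g⁻¹ : SLZ n) : Matrix (Fin n) (Fin n) ℤ) *ᵥ x := ⟨_, rfl⟩
  obtain ⟨ψ', hψ'⟩ : ∃ ψ', ψ' = ψ ᵥ* (g : Matrix (Fin n) (Fin n) ℤ) := ⟨_, rfl⟩
  have e1 : ψ' ⬝ᵥ v = 0 := by
    rw [hψ', ← Matrix.dotProduct_mulVec]
    exact h1
  have e2 : ψ' ⬝ᵥ x' = 0 := by
    rw [hψ', hx', ← Matrix.dotProduct_mulVec, CJP_inv_mulVec]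
    exact h2
  obtain ⟨j, hj, h, hh, β, hβ, e⟩ := hPV x' ψ' e1 e2
  refine ⟨j, hj, g * h * g⁻¹, H.mul_mem (H.mul_mem hg hh) (H.inv_mem hg), β ᵥ* qg g⁻¹, ?_, ?_⟩
  · rw [← qg_mulVec_castV, ← Matrix.dotProduct_mulVec, Matrix.mulVec_mulVec, qg_inv_mul, Matrix.one_mulVec]
    exact hβ
  · have e3 : qg g *ᵥ ((j : ℚ) • castV x') = (j : ℚ) • castV x := by
      rw [Matrix.mulVec_smul, qg_mulVec_castV, hx', CJP_inv_mulVec]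
    have e4 : castV ψ' ᵥ* qg g⁻¹ = castV ψ := by
      rw [hψ', ← castV_vecMul_qg, Matrix.vecMul_vecMul, qg_mul_inv, Matrix.vecMul_one]
    rw [qg_mul, qg_mul, e, Matrix.mul_add, Matrix.mul_add, Matrix.mul_one, Matrix.add_mul, Matrix.add_mul, qg_mul_inv,
      Matrix.mul_vecMulVec, Matrix.mul_vecMulVec, Matrix.vecMulVec_mul, Matrix.vecMulVec_mul, e3, e4, qg_mulVec_castV]

end Pool.Agent.LV
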