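import Pool.Agent.helper35.LV.Spec

/-!
# Row `lv:L2A` (MP_a2a22c_al)
-/

set_option autoImplicit false

namespace Pool.Agent.LV

open Matrix Pool.Agent.H48SL Pool.Agent.UG

/-- two linear forms kill a vector outside a given line if `n ≥ 4` -/
theorem L2A_ex {n : ℕ} (hn : 4 ≤ n) (a b p : Fin n → ℚ) (hp : p ≠ 0) :
    ∃ f : Fin n → ℚ, f ⬝ᵥ a = 0 ∧ f ⬝ᵥ b = 0 ∧ ∀ c : ℚ, f ≠ c • p := by
  by_contra hcon
  push Not at hcon
  let L : (Fin n → ℚ) →ₗ[ℚ] (ℚ × ℚ) :=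
    { toFun := fun f => (f ⬝ᵥ a, f ⬝ᵥ b)
      map_add' := fun f g => by simp only [add_dotProduct]; rfl
      map_smul' := fun c f => by simp only [smul_dotProduct]; rfl }
  have h1 := LinearMap.finrank_range_add_finrank_ker L
  have h2 : Module.finrank ℚ (LinearMap.range L) ≤ 2 := by
    have := Submodule.finrank_le (LinearMap.range L)
    have h3 : Module.finrank ℚ (ℚ × ℚ) = 2 := by
      rw [Module.finrank_prod, Module.finrank_self]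
    omega
  have h4 : LinearMap.ker L ≤ Submodule.span ℚ {p} := by
    intro f hf
    have h5 : (f ⬝ᵥ a, f ⬝ᵥ b) = (0 : ℚ × ℚ) := hf
    obtain ⟨c, hc⟩ := hcon f (congrArg Prod.fst h5) (congrArg Prod.snd h5)
    rw [Submodule.mem_span_singleton]
    exact ⟨c, hc.symm⟩
  have h5 := Submodule.finrank_mono h4
  rw [finrank_span_singleton hp] at h5
  rw [Module.finrank_fin_fun] at h1
  omega

/-- the product of two elements -/
theorem L2A_prod {n : ℕ} (x y v ψ φ β γ : Fin n → ℚ) (hψx : ψ ⬝ᵥ y = 0) (hψv : ψ ⬝ᵥ v = 0) (hβv : β ⬝ᵥ v = 0) :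
    (1 + vecMulVec x ψ + vecMulVec v β) * (1 + vecMulVec y φ + vecMulVec v γ) =
      1 + vecMulVec x ψ + vecMulVec v β + vecMulVec y φ + vecMulVec v γ + vecMulVec v ((β ⬝ᵥ y) • φ) := by
  rw [Matrix.add_mul, Matrix.add_mul, Matrix.one_mul, Matrix.mul_add, Matrix.mul_add, Matrix.mul_one, Matrix.mul_add,
    Matrix.mul_add, Matrix.mul_one, vecMulVec_mul_vecMulVec, vecMulVec_mul_vecMulVec, vecMulVec_mul_vecMulVec,
    vecMulVec_mul_vecMulVec, hψx, hψv, hβv]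
  simp only [zero_smul, vecMulVec_zero]
  abel

theorem L2A_fix {n : ℕ} (x v ψ β : Fin n → ℚ) (hψv : ψ ⬝ᵥ v = 0) (hβv : β ⬝ᵥ v = 0) :
    (1 + vecMulVec x ψ + vecMulVec v β) *ᵥ v = v := by
  rw [Matrix.add_mulVec, Matrix.add_mulVec, Matrix.one_mulVec, vecMulVec_mulVec, vecMulVec_mulVec, hψv, hβv]
  simp

theorem L2A (hEQK : EQK_stmt) : L2A_stmt := by
  intro n hn H v hv hPV hNK h hh x ψ β hψ0 hψv hψx hβv e
  have hψ0' : castV ψ ≠ 0 := by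
    intro h0
    rw [← castV_zero] at h0
    exact hψ0 (castV_inj h0)
  have hψv' : castV ψ ⬝ᵥ castV v = 0 := by
    rw [castV_dot, hψv, Int.cast_zero]
  obtain ⟨f, hf1, hf2, hf3⟩ := L2A_ex hn (castV v) x (castV ψ) hψ0'
  obtain ⟨M, ψ₂, hM, e2⟩ := clear_denom f
  obtain ⟨N, x', hN, e3⟩ := clear_denom x
  have hM' : (M : ℚ) ≠ 0 := by exact_mod_cast hM
  have hN' : (N : ℚ) ≠ 0 := by exact_mod_cast hN
  have a1 : castV ψ₂ ⬝ᵥ castV v = 0 := by rw [e2, smul_dotProduct, hf1, smul_zero]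
  have a2 : castV ψ₂ ⬝ᵥ x = 0 := by rw [e2, smul_dotProduct, hf2, smul_zero]
  have a3 : castV ψ₂ ⬝ᵥ castV x' = 0 := by rw [e3, dotProduct_smul, a2, smul_zero]
  obtain ⟨j, hj, h₂, hh₂, β₂, hβ₂, e4⟩ := hPV x' ψ₂ (by
    rw [castV_dot] at a1
    exact_mod_cast a1) (by
    rw [castV_dot] at a3
    exact_mod_cast a3)
  rw [e3, smul_smul] at e4
  obtain ⟨c, hc⟩ : ∃ c : ℚ, c = (j : ℚ) * N := ⟨_, rfl⟩
  have hc0 : c ≠ 0 := by
    rw [hc]
    have : (j : ℚ) ≠ 0 := by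
      have : 0 < j := hj
      positivity
    exact mul_ne_zero this hN'
  rw [← hc] at e4
  have p1 : qg (h * h₂) = 1 + vecMulVec x (castV ψ) + vecMulVec (castV v) β + vecMulVec (c • x) (castV ψ₂) +
      vecMulVec (castV v) β₂ + vecMulVec (castV v) ((β ⬝ᵥ (c • x)) • castV ψ₂) := by
    rw [qg_mul, e, e4]
    exact L2A_prod x (c • x) (castV v) (castV ψ) (castV ψ₂) β β₂ (by rw [dotProduct_smul, hψx, smul_zero]) hψv' hβv
  have p2 : qg (h₂ * h) = 1 + vecMulVec (c • x) (castV ψ₂) + vecMulVec (castV v) β₂ + vecMulVec x (castV ψ) +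
      vecMulVec (castV v) β + vecMulVec (castV v) ((β₂ ⬝ᵥ x) • castV ψ) := by
    rw [qg_mul, e, e4]
    exact L2A_prod (c • x) x (castV v) (castV ψ₂) (castV ψ) β₂ β a2 a1 hβ₂
  have h0 := hEQK n H v hv hNK (h * h₂) (H.mul_mem hh hh₂) (h₂ * h) (H.mul_mem hh₂ hh)
    ((β ⬝ᵥ (c • x)) • castV ψ₂ - (β₂ ⬝ᵥ x) • castV ψ) (by
      rw [sub_dotProduct, smul_dotProduct, smul_dotProduct, a1, hψv', smul_zero, smul_zero, sub_zero]) (by
      rw [qg_mul, e, e4, ← Matrix.mulVec_mulVec, L2A_fix _ _ _ _ hψv' hβv, L2A_fix _ _ _ _ a1 hβ₂]) (by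
      rw [p1, p2, vecMulVec_sub]
      abel)
  by_contra hne
  rw [dotProduct_smul, smul_eq_mul, e2, smul_smul, sub_eq_zero] at h0
  have hk : c * (β ⬝ᵥ x) * (M : ℚ) ≠ 0 := mul_ne_zero (mul_ne_zero hc0 hne) hM'
  refine hf3 ((c * (β ⬝ᵥ x) * (M : ℚ))⁻¹ * (β₂ ⬝ᵥ x)) ?_
  rw [← smul_smul, ← h0, smul_smul, inv_mul_cancel₀ hk, one_smul]

end Pool.Agent.LV
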